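import Pool.Agent.H12.KP.Targets4

/-!
# TRANS: transport of the certificate from `Ah` to `A`
-/

set_option autoImplicit false

namespace Pool.Agent.H94.KP

open Pool.Agent.H12.KP Polynomial TensorProduct

universe u v

section Base

variable {A Ah : Type u} [CommRing A] [CommRing Ah] [Algebra A Ah]

/-- the map of the base change -/
noncomputable def tm (R : Subalgebra A Ah) (B : Type u) [CommRing B] [Algebra A B] :
    R ⊗[A] B →ₐ[A] Ah ⊗[A] B :=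
  Algebra.TensorProduct.map R.val (AlgHom.id A B)

theorem tm_tmul (R : Subalgebra A Ah) (B : Type u) [CommRing B] [Algebra A B] (r : R) (b : B) :
    tm R B (r ⊗ₜ b) = (r : Ah) ⊗ₜ b := by
  unfold tm
  rw [Algebra.TensorProduct.map_tmul]
  rfl

theorem tm_inj (R : Subalgebra A Ah) (B : Type u) [CommRing B] [Algebra A B] [Module.Flat A B] :
    Function.Injective (tm R B) := by
  have h := Module.Flat.rTensor_preserves_injective_linearMap (M := B) R.val.toLinearMap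
    Subtype.val_injective
  have e : ∀ z, tm R B z = LinearMap.rTensor B R.val.toLinearMap z := by
    intro z
    induction z using TensorProduct.induction_on with
    | zero => rw [map_zero, map_zero]
    | tmul x y =>
      rw [tm_tmul, LinearMap.rTensor_tmul]
      rfl
    | add x y hx hy => rw [map_add, map_add, hx, hy]
  intro x y hxy
  rw [e, e] at hxy
  exact h hxy

theorem tm_surj (B : Type u) [CommRing B] [Algebra A B] (z : Ah ⊗[A] B) :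
    ∃ s : Set Ah, s.Finite ∧ ∀ R : Subalgebra A Ah, s ⊆ R → ∃ z', tm R B z' = z := by
  induction z using TensorProduct.induction_on with
  | zero => exact ⟨∅, Set.finite_empty, fun R _ => ⟨0, map_zero _⟩⟩
  | tmul x y =>
    refine ⟨{x}, Set.finite_singleton x, fun R hR => ⟨(⟨x, hR rfl⟩ : R) ⊗ₜ y, ?_⟩⟩
    rw [tm_tmul]
  | add x y hx hy =>
    obtain ⟨s, hs, h1⟩ := hx
    obtain ⟨t, ht, h2⟩ := hy
    refine ⟨s ∪ t, hs.union ht, fun R hR => ?_⟩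
    obtain ⟨x', rfl⟩ := h1 R (Set.subset_union_left.trans hR)
    obtain ⟨y', rfl⟩ := h2 R (Set.subset_union_right.trans hR)
    exact ⟨x' + y', map_add _ _ _⟩

end Base

/-- certificates are mapped to certificates -/
theorem cert_map {A A' : Type u} {B0 B1 B01 B0' B1' B01' : Type v} [CommRing A] [CommRing A']
    [CommRing B0] [CommRing B1] [CommRing B01] [CommRing B0'] [CommRing B1'] [CommRing B01']
    [Algebra A B0] [Algebra A B1] [Algebra A B01] [Algebra A' B0'] [Algebra A' B1']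
    [Algebra A' B01'] (C : Charts A B0 B1 B01) (C' : Charts A' B0' B1' B01')
    (ψ0 : B0 →+* B0') (ψ1 : B1 →+* B1') (ψ01 : B01 →+* B01')
    (h0 : ∀ x, ψ01 (C.i0 x) = C'.i0 (ψ0 x)) (h1 : ∀ x, ψ01 (C.i1 x) = C'.i1 (ψ1 x))
    (hT : ψ0 C.T = C'.T) (hS : ψ1 C.S = C'.S) (π : A) (π' : A')
    (hπ0 : ψ0 (algebraMap A B0 π) = algebraMap A' B0' π')
    (hπ1 : ψ1 (algebraMap A B1 π) = algebraMap A' B1' π') (n0 q M : ℕ) (b c : B0) (b1 : B1)
    (h : Cert C π n0 q M b c b1) : Cert C' π' n0 q M (ψ0 b) (ψ0 c) (ψ1 b1) := by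
  obtain ⟨η0, f0, f1, s0, s1, g0, η1, i, g1, d1, s2, s3, s4, s5, e1, e2, e3, e4, e5, e6⟩ := h
  refine ⟨ψ0 η0, ψ0 f0, ψ0 f1, ψ0 s0, ψ0 s1, ψ0 g0, ψ1 η1, ψ1 i, ψ1 g1, ψ1 d1, ψ1 s2, ψ1 s3,
    ψ1 s4, ψ1 s5, ?_, ?_, ?_, ?_, ?_, ?_⟩
  · have e := congrArg ψ01 e1
    rw [map_mul, map_pow, h0, h0, h1, hT] at e
    exact e
  · have e := congrArg ψ0 e2
    simp only [map_mul, map_add, map_one, map_pow, hπ0] at e
    exact e
  · have e := congrArg ψ0 e3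
    simp only [map_mul, map_add, map_one, map_pow, hπ0] at e
    exact e
  · have e := congrArg ψ0 e4
    simp only [map_mul, map_add, hπ0] at e
    exact e
  · have e := congrArg ψ1 e5
    simp only [map_mul, map_add, map_one, map_pow, hπ1, hS] at e
    exact e
  · have e := congrArg ψ1 e6
    simp only [map_mul, map_add, map_one, map_pow, hπ1, hS] at e
    exact e

/-- certificates with witnesses in the image can be lifted along injective maps -/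
theorem cert_lift {A A' : Type u} {B0 B1 B01 B0' B1' B01' : Type v} [CommRing A] [CommRing A']
    [CommRing B0] [CommRing B1] [CommRing B01] [CommRing B0'] [CommRing B1'] [CommRing B01']
    [Algebra A B0] [Algebra A B1] [Algebra A B01] [Algebra A' B0'] [Algebra A' B1']
    [Algebra A' B01'] (C : Charts A B0 B1 B01) (C' : Charts A' B0' B1' B01')
    (ψ0 : B0 →+* B0') (ψ1 : B1 →+* B1') (ψ01 : B01 →+* B01')
    (i0 : Function.Injective ψ0) (i1 : Function.Injective ψ1) (i01 : Function.Injective ψ01)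
    (h0 : ∀ x, ψ01 (C.i0 x) = C'.i0 (ψ0 x)) (h1 : ∀ x, ψ01 (C.i1 x) = C'.i1 (ψ1 x))
    (hT : ψ0 C.T = C'.T) (hS : ψ1 C.S = C'.S) (π : A) (π' : A')
    (hπ0 : ψ0 (algebraMap A B0 π) = algebraMap A' B0' π')
    (hπ1 : ψ1 (algebraMap A B1 π) = algebraMap A' B1' π') (n0 q M : ℕ) (b c : B0) (b1 : B1)
    (η0 f0 f1 s0 s1 g0 : B0) (η1 i g1 d1 s2 s3 s4 s5 : B1)
    (e1 : C'.i0 (ψ0 η0) = C'.i0 C'.T ^ M * C'.i1 (ψ1 η1))
    (e2 : (1 + algebraMap A' B0' π' * ψ0 s0) * ψ0 η0 =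
      (ψ0 b + algebraMap A' B0' π' ^ n0 * ψ0 c) * ψ0 f0)
    (e3 : (1 + algebraMap A' B0' π' * ψ0 s1) * (ψ0 b + algebraMap A' B0' π' ^ n0 * ψ0 c) =
      ψ0 η0 * ψ0 f1)
    (e4 : ψ0 η0 = ψ0 b + algebraMap A' B0' π' * ψ0 g0)
    (e5 : (1 + algebraMap A' B1' π' * ψ1 s2 + C'.S * ψ1 s3) * (ψ1 b1 * ψ1 i ^ q) =
      ψ1 η1 * ψ1 g1)
    (e6 : (1 + algebraMap A' B1' π' * ψ1 s4 + C'.S * ψ1 s5) * ψ1 η1 =
      ψ1 b1 * ψ1 i ^ q * ψ1 d1) : Cert C π n0 q M b c b1 := by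
  refine ⟨η0, f0, f1, s0, s1, g0, η1, i, g1, d1, s2, s3, s4, s5, ?_, ?_, ?_, ?_, ?_, ?_⟩
  · apply i01
    rw [map_mul, map_pow, h0, h0, h1, hT]
    exact e1
  · apply i0
    simp only [map_mul, map_add, map_one, map_pow, hπ0]
    exact e2
  · apply i0
    simp only [map_mul, map_add, map_one, map_pow, hπ0]
    exact e3
  · apply i0
    simp only [map_mul, map_add, hπ0]
    exact e4
  · apply i1
    simp only [map_mul, map_add, map_one, map_pow, hπ1, hS]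
    exact e5
  · apply i1
    simp only [map_mul, map_add, map_one, map_pow, hπ1, hS]
    exact e6

/-- base change commutes with maps -/
theorem tm_comm {A Ah : Type u} [CommRing A] [CommRing Ah] [Algebra A Ah] (R : Subalgebra A Ah)
    {B B' : Type u} [CommRing B] [Algebra A B] [CommRing B'] [Algebra A B'] (f : B →ₐ[A] B')
    (x : R ⊗[A] B) : tm R B' (Algebra.TensorProduct.map (AlgHom.id R R) f x) =
      Algebra.TensorProduct.map (AlgHom.id Ah Ah) f (tm R B x) := by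
  induction x using TensorProduct.induction_on with
  | zero => simp only [map_zero]
  | tmul x y =>
    rw [Algebra.TensorProduct.map_tmul, tm_tmul, tm_tmul, Algebra.TensorProduct.map_tmul]
    rfl
  | add x y hx hy => rw [map_add, map_add, map_add, map_add, hx, hy]

/-- the specialisation -/
noncomputable def sp {A R : Type u} [CommRing A] [CommRing R] [Algebra A R] (φ : R →ₐ[A] A)
    (B : Type u) [CommRing B] [Algebra A B] : R ⊗[A] B →ₐ[A] B :=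
  Algebra.TensorProduct.productMap ((Algebra.ofId A B).comp φ) (AlgHom.id A B)

theorem sp_tmul {A R : Type u} [CommRing A] [CommRing R] [Algebra A R] (φ : R →ₐ[A] A)
    (B : Type u) [CommRing B] [Algebra A B] (r : R) (b : B) :
    sp φ B (r ⊗ₜ b) = algebraMap A B (φ r) * b := by
  unfold sp
  rw [Algebra.TensorProduct.productMap_apply_tmul]
  rfl

theorem sp_comm {A R : Type u} [CommRing A] [CommRing R] [Algebra A R] (φ : R →ₐ[A] A)
    {B B' : Type u} [CommRing B] [Algebra A B] [CommRing B'] [Algebra A B'] (f : B →ₐ[A] B')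
    (x : R ⊗[A] B) : sp φ B' (Algebra.TensorProduct.map (AlgHom.id R R) f x) =
      f (sp φ B x) := by
  induction x using TensorProduct.induction_on with
  | zero => simp only [map_zero]
  | tmul x y =>
    rw [Algebra.TensorProduct.map_tmul, sp_tmul, sp_tmul, map_mul, AlgHom.commutes]
    rfl
  | add x y hx hy => rw [map_add, map_add, map_add, map_add, hx, hy]

theorem pf_TRANS : S_TRANS.{u} := by
  intro A Ah B0 B1 B01 _ _ _ _ _ _ _ _ _ _ _ _ _ _ hAh C π n0 q M b c b1 hc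
  obtain ⟨η0, f0, f1, s0, s1, g0, η1, i, g1, d1, s2, s3, s4, s5, e1, e2, e3, e4, e5, e6⟩ := hc
  obtain ⟨S1, hS1, H1⟩ := tm_surj B0 η0
  obtain ⟨S2, hS2, H2⟩ := tm_surj B0 f0
  obtain ⟨S3, hS3, H3⟩ := tm_surj B0 f1
  obtain ⟨S4, hS4, H4⟩ := tm_surj B0 s0
  obtain ⟨S5, hS5, H5⟩ := tm_surj B0 s1
  obtain ⟨S6, hS6, H6⟩ := tm_surj B0 g0
  obtain ⟨S7, hS7, H7⟩ := tm_surj B1 η1
  obtain ⟨S8, hS8, H8⟩ := tm_surj B1 i
  obtain ⟨S9, hS9, H9⟩ := tm_surj B1 g1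
  obtain ⟨S10, hS10, H10⟩ := tm_surj B1 d1
  obtain ⟨S11, hS11, H11⟩ := tm_surj B1 s2
  obtain ⟨S12, hS12, H12⟩ := tm_surj B1 s3
  obtain ⟨S13, hS13, H13⟩ := tm_surj B1 s4
  obtain ⟨S14, hS14, H14⟩ := tm_surj B1 s5
  obtain ⟨R, hR, hsub⟩ : ∃ R : Subalgebra A Ah, R.FG ∧ (S1 ∪ S2 ∪ S3 ∪ S4 ∪ S5 ∪ S6 ∪ S7 ∪ S8 ∪
      S9 ∪ S10 ∪ S11 ∪ S12 ∪ S13 ∪ S14) ⊆ R := by
    refine ⟨Algebra.adjoin A (S1 ∪ S2 ∪ S3 ∪ S4 ∪ S5 ∪ S6 ∪ S7 ∪ S8 ∪
      S9 ∪ S10 ∪ S11 ∪ S12 ∪ S13 ∪ S14), ?_, Algebra.subset_adjoin⟩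
    rw [Subalgebra.fg_def]
    exact ⟨_, (((((((((((((hS1.union hS2).union hS3).union hS4).union hS5).union hS6).union
      hS7).union hS8).union hS9).union hS10).union hS11).union hS12).union hS13).union hS14),
      rfl⟩
  simp only [Set.union_subset_iff] at hsub
  obtain ⟨⟨⟨⟨⟨⟨⟨⟨⟨⟨⟨⟨⟨k1, k2⟩, k3⟩, k4⟩, k5⟩, k6⟩, k7⟩, k8⟩, k9⟩, k10⟩, k11⟩, k12⟩, k13⟩, k14⟩ := hsub
  obtain ⟨η0, rfl⟩ := H1 R k1
  obtain ⟨f0, rfl⟩ := H2 R k2
  obtain ⟨f1, rfl⟩ := H3 R k3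
  obtain ⟨s0, rfl⟩ := H4 R k4
  obtain ⟨s1, rfl⟩ := H5 R k5
  obtain ⟨g0, rfl⟩ := H6 R k6
  obtain ⟨η1, rfl⟩ := H7 R k7
  obtain ⟨i, rfl⟩ := H8 R k8
  obtain ⟨g1, rfl⟩ := H9 R k9
  obtain ⟨d1, rfl⟩ := H10 R k10
  obtain ⟨s2, rfl⟩ := H11 R k11
  obtain ⟨s3, rfl⟩ := H12 R k12
  obtain ⟨s4, rfl⟩ := H13 R k13
  obtain ⟨s5, rfl⟩ := H14 R k14
  obtain ⟨φ⟩ := hAh R hR
  have hone : ∀ (B : Type u) [CommRing B] [Algebra A B] (x : B),
      tm R B (1 ⊗ₜ x) = 1 ⊗ₜ x := by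
    intro B _ _ x
    rw [tm_tmul]
    rfl
  have hR2 : Cert (C.bc R) (algebraMap A R π) n0 q M (1 ⊗ₜ b) (1 ⊗ₜ c) (1 ⊗ₜ b1) := by
    refine cert_lift (C.bc R) (C.bc Ah) (tm R B0).toRingHom (tm R B1).toRingHom
      (tm R B01).toRingHom (tm_inj R B0) (tm_inj R B1) (tm_inj R B01)
      (fun x => tm_comm R C.i0 x) (fun x => tm_comm R C.i1 x) (hone B0 C.T) (hone B1 C.S)
      (algebraMap A R π) (algebraMap A Ah π) ?_ ?_ n0 q M (1 ⊗ₜ b) (1 ⊗ₜ c) (1 ⊗ₜ b1)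
      η0 f0 f1 s0 s1 g0 η1 i g1 d1 s2 s3 s4 s5 e1 ?_ ?_ ?_ ?_ ?_
    · exact tm_tmul R B0 _ _
    · exact tm_tmul R B1 _ _
    · have hb := hone B0 b
      have hc := hone B0 c
      show _ = (tm R B0 (1 ⊗ₜ b) + _ * tm R B0 (1 ⊗ₜ c)) * _
      rw [hb, hc]
      exact e2
    · have hb := hone B0 b
      have hc := hone B0 c
      show _ * (tm R B0 (1 ⊗ₜ b) + _ * tm R B0 (1 ⊗ₜ c)) = _
      rw [hb, hc]
      exact e3
    · have hb := hone B0 b
      show _ = tm R B0 (1 ⊗ₜ b) + _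
      rw [hb]
      exact e4
    · have hb := hone B1 b1
      show _ * (tm R B1 (1 ⊗ₜ b1) * _) = _
      rw [hb]
      exact e5
    · have hb := hone B1 b1
      show _ = tm R B1 (1 ⊗ₜ b1) * _ * _
      rw [hb]
      exact e6
  have hsp : ∀ (B : Type u) [CommRing B] [Algebra A B] (x : B), sp φ B (1 ⊗ₜ x) = x := by
    intro B _ _ x
    rw [sp_tmul, map_one, map_one, one_mul]
  have h3 := cert_map (C.bc R) C (sp φ B0).toRingHom (sp φ B1).toRingHom (sp φ B01).toRingHom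
    (fun x => sp_comm φ C.i0 x) (fun x => sp_comm φ C.i1 x) (hsp B0 C.T) (hsp B1 C.S)
    (algebraMap A R π) π ?_ ?_ n0 q M _ _ _ hR2
  · have h4 : Cert C π n0 q M (sp φ B0 (1 ⊗ₜ b)) (sp φ B0 (1 ⊗ₜ c)) (sp φ B1 (1 ⊗ₜ b1)) := h3
    rw [hsp, hsp, hsp] at h4
    exact h4
  · show sp φ B0 (algebraMap A R π ⊗ₜ 1) = _
    rw [sp_tmul, AlgHom.commutes, mul_one]
    rfl
  · show sp φ B1 (algebraMap A R π ⊗ₜ 1) = _
    rw [sp_tmul, AlgHom.commutes, mul_one]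
    rfl

end Pool.Agent.H94.KP
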