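import Pool.Agent.H85.KP.Iface

/-!
# Closed form of the extremal polynomial (module M8 of MP_6cc408_an)
-/

set_option autoImplicit false

namespace Pool.Agent.H94.KP

open Polynomial Real Set Pool.Agent.H85.KP

/-! ### geometric sums -/

theorem geo0 (n : ℕ) (x : ℂ) : (1 - x) * ∑ j ∈ Finset.range n, x ^ j = 1 - x ^ n := by
  rw [mul_comm]
  exact geom_sum_mul_neg x n

theorem geo1 (n : ℕ) (x : ℂ) :
    (1 - x) * ∑ j ∈ Finset.range n, ((n : ℂ) - j) * x ^ j =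
      n - x * ∑ j ∈ Finset.range n, x ^ j := by
  induction n with
  | zero => simp
  | succ n ih =>
    have h0 := geo0 n x
    rw [Finset.sum_range_succ, Finset.sum_range_succ]
    have e : ∑ j ∈ Finset.range n, (((n + 1 : ℕ) : ℂ) - j) * x ^ j =
        (∑ j ∈ Finset.range n, ((n : ℂ) - j) * x ^ j) + ∑ j ∈ Finset.range n, x ^ j := by
      rw [← Finset.sum_add_distrib]
      refine Finset.sum_congr rfl fun j _ => ?_
      push_cast
      ring
    rw [e]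
    push_cast
    linear_combination ih + h0

/-! ### the angle -/

theorem phi_pos (N : ℕ) : 0 < 2 * π / ((N + 2 : ℕ) : ℝ) := by positivity

theorem phi_lt {N : ℕ} (hN : 3 ≤ N) : 2 * π / ((N + 2 : ℕ) : ℝ) < π / 2 := by
  have h5 : (5:ℝ) ≤ ((N + 2 : ℕ) : ℝ) := by exact_mod_cast (by omega : 5 ≤ N + 2)
  rw [div_lt_div_iff₀ (by linarith) (by norm_num)]
  nlinarith [pi_pos]

theorem sin_phi_pos {N : ℕ} (hN : 3 ≤ N) : 0 < sin (2 * π / ((N + 2 : ℕ) : ℝ)) :=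
  sin_pos_of_pos_of_lt_pi (phi_pos N) (by have := phi_lt hN; linarith [pi_pos])

theorem cos_phi_lt {N : ℕ} (hN : 3 ≤ N) : cos (2 * π / ((N + 2 : ℕ) : ℝ)) < 1 := by
  have h1 := sin_phi_pos hN
  have h2 := sin_sq_add_cos_sq (2 * π / ((N + 2 : ℕ) : ℝ))
  nlinarith [cos_le_one (2 * π / ((N + 2 : ℕ) : ℝ))]

theorem cos_phi_pos {N : ℕ} (hN : 3 ≤ N) : 0 < cos (2 * π / ((N + 2 : ℕ) : ℝ)) :=
  cos_pos_of_mem_Ioo ⟨by have := phi_pos N; linarith [pi_pos], phi_lt hN⟩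

theorem pt_eq (t : ℝ) : pt t = cos t + sin t * Complex.I := by
  unfold pt
  rw [Complex.exp_mul_I, Complex.ofReal_cos, Complex.ofReal_sin]

theorem pt_re' (t : ℝ) : (pt t).re = cos t := Complex.exp_ofReal_mul_I_re t
theorem pt_im' (t : ℝ) : (pt t).im = sin t := Complex.exp_ofReal_mul_I_im t

theorem pt_pow (t : ℝ) (j : ℕ) : pt t ^ j = pt (j * t) := by
  unfold pt
  rw [← Complex.exp_nat_mul]
  congr 1
  push_cast
  ring

theorem pt_mul_neg (t : ℝ) : pt t * pt (-t) = 1 := by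
  unfold pt
  rw [← Complex.exp_add]
  simp

theorem nphi (N : ℕ) : ((N + 2 : ℕ) : ℝ) * (2 * π / ((N + 2 : ℕ) : ℝ)) = 2 * π := by
  field_simp

theorem ptn (N : ℕ) : pt (2 * π / ((N + 2 : ℕ) : ℝ)) ^ (N + 2) = 1 := by
  rw [pt_pow, nphi, pt_eq]
  simp

theorem ptn' (N : ℕ) : pt (-(2 * π / ((N + 2 : ℕ) : ℝ))) ^ (N + 2) = 1 := by
  rw [pt_pow, mul_neg, nphi, pt_eq]
  simp

theorem acoef_last (N : ℕ) (hN : 3 ≤ N) : acoef (N + 2) (N + 1) = 0 := by
  unfold acoef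
  have hs := sin_phi_pos hN
  have hc := cos_phi_lt hN
  have e : ((N + 1 : ℕ) : ℝ) * (2 * π / ((N + 2 : ℕ) : ℝ)) =
      2 * π - 2 * π / ((N + 2 : ℕ) : ℝ) := by
    have := nphi N
    push_cast at this ⊢
    linarith
  rw [e, cos_two_pi_sub, sin_two_pi_sub]
  have h1 : 1 - cos (2 * π / ((N + 2 : ℕ) : ℝ)) ≠ 0 := by linarith
  have h2 : sin (2 * π / ((N + 2 : ℕ) : ℝ)) ≠ 0 := hs.ne'
  rw [div_self h1]
  push_cast at h2 ⊢
  field_simp
  ring

theorem acoef_N (N : ℕ) (hN : 3 ≤ N) : acoef (N + 2) N =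
    2 / ((N + 2 : ℕ) : ℝ) * (1 - cos (2 * π / ((N + 2 : ℕ) : ℝ))) := by
  unfold acoef
  have hs := sin_phi_pos hN
  have hc := cos_phi_lt hN
  have e : (N : ℝ) * (2 * π / ((N + 2 : ℕ) : ℝ)) =
      2 * π - 2 * (2 * π / ((N + 2 : ℕ) : ℝ)) := by
    have := nphi N
    push_cast at this ⊢
    linarith
  rw [e, cos_two_pi_sub, sin_two_pi_sub, cos_two_mul, sin_two_mul]
  have hn : ((N + 2 : ℕ) : ℝ) - N = 2 := by push_cast; ring
  rw [hn]
  have hn0 : ((N + 2 : ℕ) : ℝ) ≠ 0 := by positivity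
  have hsc := sin_sq_add_cos_sq (2 * π / ((N + 2 : ℕ) : ℝ))
  generalize cos (2 * π / ((N + 2 : ℕ) : ℝ)) = c at *
  generalize sin (2 * π / ((N + 2 : ℕ) : ℝ)) = s at *
  generalize ((N + 2 : ℕ) : ℝ) = m at *
  have h1 : 1 - c ≠ 0 := by linarith
  have h2 : s ≠ 0 := hs.ne'
  field_simp
  ring

theorem ext_eq (N : ℕ) (hN : 3 ≤ N) (z : ℂ) : ev (extPoly N) z =
    ∑ j ∈ Finset.range (N + 2), (acoef (N + 2) j : ℂ) * z ^ j := by
  unfold ev extPoly
  rw [map_sum, Finset.sum_range_succ _ (N + 1), acoef_last N hN]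
  simp

/-- the main identity -/
theorem main_id (N : ℕ) (hN : 3 ≤ N) (z : ℂ) :
    ((N + 2 : ℕ) : ℂ) * (1 - 2 * (cos (2 * π / ((N + 2 : ℕ) : ℝ)) : ℂ) * z + z ^ 2) ^ 2 *
      (1 - z) * ev (extPoly N) z =
    ((N + 2 : ℕ) : ℂ) * z * (1 - 2 * (cos (2 * π / ((N + 2 : ℕ) : ℝ)) : ℂ) * z + z ^ 2) * (1 - z) +
      2 * (1 - (cos (2 * π / ((N + 2 : ℕ) : ℝ)) : ℂ)) * z ^ 2 * (1 + z) * (1 - z ^ (N + 2)) := by
  obtain ⟨φ, hφ⟩ : ∃ φ : ℝ, φ = 2 * π / ((N + 2 : ℕ) : ℝ) := ⟨_, rfl⟩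
  have hs := sin_phi_pos hN
  have hc := cos_phi_lt hN
  have hw : pt φ ^ (N + 2) = 1 := by rw [hφ]; exact ptn N
  have hw' : pt (-φ) ^ (N + 2) = 1 := by rw [hφ]; exact ptn' N
  have hww := pt_mul_neg φ
  have hwc := pt_eq φ
  have hwc' := pt_eq (-φ)
  rw [cos_neg, sin_neg] at hwc'
  rw [ext_eq N hN z]
  rw [← hφ] at hs hc ⊢
  have hc1 : (1 - (cos φ : ℂ)) ≠ 0 := by
    have : (1 : ℝ) - cos φ ≠ 0 := by linarith
    exact_mod_cast this
  have hs1 : (sin φ : ℂ) ≠ 0 := by exact_mod_cast hs.ne'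
  have hn0 : ((N + 2 : ℕ) : ℂ) ≠ 0 := Nat.cast_ne_zero.2 (by omega)
  -- the sum
  have hsum : ((N + 2 : ℕ) : ℂ) * (1 - (cos φ : ℂ)) * (2 * Complex.I * (sin φ : ℂ)) *
      ∑ j ∈ Finset.range (N + 2), (acoef (N + 2) j : ℂ) * z ^ j =
      2 * Complex.I * (sin φ : ℂ) * ((∑ j ∈ Finset.range (N + 2), z ^ j) -
        ((∑ j ∈ Finset.range (N + 2), (pt φ * z) ^ j) +
          ∑ j ∈ Finset.range (N + 2), (pt (-φ) * z) ^ j) / 2) +
      (1 - (cos φ : ℂ)) * ((∑ j ∈ Finset.range (N + 2), (((N + 2 : ℕ) : ℂ) - j) * (pt φ * z) ^ j) -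
        ∑ j ∈ Finset.range (N + 2), (((N + 2 : ℕ) : ℂ) - j) * (pt (-φ) * z) ^ j) := by
    rw [← Finset.sum_add_distrib, Finset.sum_div, ← Finset.sum_sub_distrib,
      ← Finset.sum_sub_distrib, Finset.mul_sum, Finset.mul_sum, Finset.mul_sum,
      ← Finset.sum_add_distrib]
    refine Finset.sum_congr rfl fun j _ => ?_
    rw [mul_pow, mul_pow, pt_pow, pt_pow, pt_eq, pt_eq]
    have e1 : (j : ℝ) * -φ = -(j * φ) := by ring
    rw [e1, cos_neg, sin_neg]
    unfold acoef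
    rw [← hφ]
    push_cast
    have hn0' : ((N : ℂ) + 2) ≠ 0 := by exact_mod_cast hn0
    simp only [← Complex.ofReal_cos, ← Complex.ofReal_sin] at *
    field_simp
    ring_nf
  have g0 := geo0 (N + 2) z
  have gw := geo0 (N + 2) (pt φ * z)
  have gv := geo0 (N + 2) (pt (-φ) * z)
  have hw1 := geo1 (N + 2) (pt φ * z)
  have hv1 := geo1 (N + 2) (pt (-φ) * z)
  rw [mul_pow, hw, one_mul] at gw
  rw [mul_pow, hw', one_mul] at gv
  generalize (∑ j ∈ Finset.range (N + 2), z ^ j) = A at *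
  generalize (∑ j ∈ Finset.range (N + 2), (pt φ * z) ^ j) = B at *
  generalize (∑ j ∈ Finset.range (N + 2), (pt (-φ) * z) ^ j) = C' at *
  generalize (∑ j ∈ Finset.range (N + 2), (((N + 2 : ℕ) : ℂ) - j) * (pt φ * z) ^ j) = B1 at *
  generalize (∑ j ∈ Finset.range (N + 2), (((N + 2 : ℕ) : ℂ) - j) * (pt (-φ) * z) ^ j) = C1 at *
  generalize (∑ j ∈ Finset.range (N + 2), (acoef (N + 2) j : ℂ) * z ^ j) = P at *
  generalize z ^ (N + 2) = Z at *
  obtain ⟨c, hcdef⟩ : ∃ c : ℂ, c = (cos φ : ℂ) := ⟨_, rfl⟩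
  have hc2 : c = (pt φ + pt (-φ)) / 2 := by
    rw [hcdef, hwc, hwc']; push_cast; ring
  have hs2 : 2 * Complex.I * (sin φ : ℂ) = pt φ - pt (-φ) := by
    rw [hwc, hwc']; push_cast; ring
  have hwv0 : pt φ - pt (-φ) ≠ 0 := by
    rw [← hs2]
    exact mul_ne_zero (mul_ne_zero two_ne_zero Complex.I_ne_zero) hs1
  rw [← hcdef] at hc1 hsum ⊢
  rw [show (2 * Complex.I * (sin φ : ℂ)) = pt φ - pt (-φ) from hs2] at hsum
  clear hwc hwc' hs2 hw hw'
  generalize pt φ = w at *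
  generalize pt (-φ) = v at *
  generalize ((N + 2 : ℕ) : ℂ) = n at *
  obtain ⟨q, hqc⟩ : ∃ q : ℂ, q = 1 - 2 * c * z + z ^ 2 := ⟨_, rfl⟩
  rw [← hqc]
  have hq : q = (1 - w * z) * (1 - v * z) := by
    rw [hqc]; linear_combination (-2 * z) * hc2 - z ^ 2 * hww
  have hqB : q * B = (1 - v * z) * (1 - Z) := by
    rw [hq]; linear_combination (1 - v * z) * gw
  have hqC : q * C' = (1 - w * z) * (1 - Z) := by
    rw [hq]; linear_combination (1 - w * z) * gv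
  have hqB1 : q ^ 2 * B1 = n * q * (1 - v * z) - w * z * (1 - v * z) ^ 2 * (1 - Z) := by
    have : q ^ 2 * B1 = q * (1 - v * z) * ((1 - w * z) * B1) := by
      conv_lhs => rw [sq, mul_assoc, hq]
      rw [hq]; ring
    rw [this, hw1]
    linear_combination (-w * z * (1 - v * z)) * hqB
  have hqC1 : q ^ 2 * C1 = n * q * (1 - w * z) - v * z * (1 - w * z) ^ 2 * (1 - Z) := by
    have : q ^ 2 * C1 = q * (1 - w * z) * ((1 - v * z) * C1) := by
      rw [hq]; ring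
    rw [this, hv1]
    linear_combination (-v * z * (1 - w * z)) * hqC
  have e1 : (1 - z) * q ^ 2 * (A - (B + C') / 2) = (1 - Z) * q * ((1 - c) * z * (1 + z)) := by
    have : (1 - z) * q ^ 2 * (A - (B + C') / 2) = q ^ 2 * ((1 - z) * A) -
      (1 - z) * q * (q * B + q * C') / 2 := by ring
    rw [this, g0, hqB, hqC]
    linear_combination (1 - Z) * q * hqc + (1 - Z) * q * (-z + z ^ 2) * hc2
  have e2 : q ^ 2 * (B1 - C1) = (w - v) * (n * q * z - z * (1 - Z) * (1 - z ^ 2)) := by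
    rw [mul_sub, hqB1, hqC1]
    linear_combination (z ^ 3 * (1 - Z) * (w - v)) * hww
  have e3 : q - (1 - z) ^ 2 = 2 * z * (1 - c) := by rw [hqc]; ring
  apply mul_left_cancel₀ (mul_ne_zero hc1 hwv0)
  calc (1 - c) * (w - v) * (n * q ^ 2 * (1 - z) * P) =
      q ^ 2 * (1 - z) * (n * (1 - c) * (w - v) * P) := by ring
    _ = (w - v) * ((1 - z) * q ^ 2 * (A - (B + C') / 2)) +
        (1 - z) * (1 - c) * (q ^ 2 * (B1 - C1)) := by rw [hsum]; ring
    _ = (w - v) * ((1 - Z) * q * ((1 - c) * z * (1 + z))) +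
        (1 - z) * (1 - c) * ((w - v) * (n * q * z - z * (1 - Z) * (1 - z ^ 2))) := by
        rw [e1, e2]
    _ = (1 - c) * (w - v) * (n * z * q * (1 - z) +
        (1 - Z) * z * (1 + z) * (q - (1 - z) ^ 2)) := by ring
    _ = _ := by rw [e3]; ring

theorem pt_ne_zero (t : ℝ) : pt t ≠ 0 := Complex.exp_ne_zero _

/-- `e^{2it} + 1 = 2 cos t e^{it}` -/
theorem pt_sq (t : ℝ) : pt t ^ 2 + 1 = 2 * (cos t : ℂ) * pt t := by
  rw [pt_eq]
  have h : (sin t : ℂ) ^ 2 + (cos t : ℂ) ^ 2 = 1 := by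
    exact_mod_cast congrArg (fun x : ℝ => (x : ℂ)) (sin_sq_add_cos_sq t)
  linear_combination (sin t : ℂ) ^ 2 * Complex.I_sq - h

/-- `(1 + e^{it}) sin (t/2) = i cos (t/2) (1 - e^{it})` -/
theorem pt_half (t : ℝ) :
    (1 + pt t) * (sin (t / 2) : ℂ) = Complex.I * (cos (t / 2) : ℂ) * (1 - pt t) := by
  have e : pt t = pt (t / 2) ^ 2 := by rw [pt_pow]; congr 1; push_cast; ring
  rw [e, pt_eq]
  have h : (sin (t / 2) : ℂ) ^ 2 + (cos (t / 2) : ℂ) ^ 2 = 1 := by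
    exact_mod_cast congrArg (fun x : ℝ => (x : ℂ)) (sin_sq_add_cos_sq (t / 2))
  generalize (sin (t / 2) : ℂ) = S at *
  generalize (cos (t / 2) : ℂ) = C at *
  linear_combination (S ^ 3 + 2 * C ^ 2 * S + Complex.I * C * S ^ 2) * Complex.I_sq +
    (Complex.I * C - S) * h

theorem targetU1 : TargetU1 := by
  intro N hN t ht
  have hn : ((N + 2 : ℕ) : ℝ) = (N : ℝ) + 2 := by push_cast; ring
  have hm := main_id N hN (pt t)
  have hst : 0 < sin t := sin_pos_of_pos_of_lt_pi ht.1 ht.2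
  have hs2 : 0 < sin (t / 2) := sin_pos_of_pos_of_lt_pi (by linarith [ht.1]) (by linarith [ht.1, ht.2])
  have hs2' : (sin (t / 2) : ℂ) ≠ 0 := by exact_mod_cast hs2.ne'
  have hz1 : 1 - pt t ≠ 0 := by
    intro h
    have := congrArg Complex.im h
    rw [pt_eq] at this
    simp at this
    norm_cast at this
    rw [sub_eq_zero] at *
    simp_all
  have hz0 := pt_ne_zero t
  have hn0 : ((N + 2 : ℕ) : ℂ) ≠ 0 := Nat.cast_ne_zero.2 (by omega)
  have hsq := pt_sq t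
  have hh := pt_half t
  have hq : 1 - 2 * (cos (2 * π / ((N + 2 : ℕ) : ℝ)) : ℂ) * pt t + pt t ^ 2 =
      -2 * pt t * (DD (N + 2) t : ℂ) := by
    unfold DD
    push_cast
    push_cast at hsq
    linear_combination hsq
  have hZ : pt t ^ (N + 2) = pt (((N : ℝ) + 2) * t) := by rw [pt_pow, hn]
  rw [hq, hZ, hn] at hm
  have hk : ((N + 2 : ℕ) : ℂ) * (kap (N + 2) t : ℂ) * (sin (t / 2) : ℂ) =
      (1 - (cos (2 * π / ((N : ℝ) + 2)) : ℂ)) * (cos (t / 2) : ℂ) := by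
    unfold kap
    rw [hn]
    have hn0' : ((N : ℂ) + 2) ≠ 0 := by exact_mod_cast hn0
    push_cast at hs2' ⊢
    field_simp
  have hne : ((N + 2 : ℕ) : ℂ) * (2 * pt t ^ 2) * (1 - pt t) * (sin (t / 2) : ℂ) ≠ 0 :=
    mul_ne_zero (mul_ne_zero (mul_ne_zero hn0 (mul_ne_zero two_ne_zero (pow_ne_zero 2 hz0))) hz1) hs2'
  apply mul_left_cancel₀ hne
  linear_combination (sin (t / 2) : ℂ) * hm +
    2 * (1 - (cos (2 * π / ((N : ℝ) + 2)) : ℂ)) * pt t ^ 2 * (1 - pt (((N : ℝ) + 2) * t)) * hh -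
    2 * Complex.I * pt t ^ 2 * (1 - pt t) * (1 - pt (((N : ℝ) + 2) * t)) * hk

theorem ext_coeff (N j : ℕ) (hj : j < N + 1) : (extPoly N).coeff j = acoef (N + 2) j := by
  unfold extPoly
  rw [finsetSum_coeff, Finset.sum_eq_single j]
  · simp
  · intro b _ hb
    rw [coeff_C_mul, coeff_X_pow, if_neg (Ne.symm hb), mul_zero]
  · intro h
    exact absurd (Finset.mem_range.2 hj) h

theorem ext_natDegree (N : ℕ) (hN : 3 ≤ N) : (extPoly N).natDegree = N := by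
  apply le_antisymm
  · unfold extPoly
    apply natDegree_sum_le_of_forall_le
    intro j hj
    have := Finset.mem_range.1 hj
    exact (natDegree_C_mul_X_pow_le _ _).trans (by omega)
  · apply le_natDegree_of_ne_zero
    rw [ext_coeff N N (by omega), acoef_N N hN]
    have := cos_phi_lt hN
    have h1 : (0:ℝ) < ((N + 2 : ℕ) : ℝ) := by positivity
    have : 0 < 2 / ((N + 2 : ℕ) : ℝ) * (1 - cos (2 * π / ((N + 2 : ℕ) : ℝ))) :=
      mul_pos (by positivity) (by linarith)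
    exact this.ne'

theorem ext_neg_one (N : ℕ) (hN : 3 ≤ N) : ev (extPoly N) (-1) = -(RN N : ℂ) := by
  have hm := main_id N hN (-1)
  have hn0 : ((N + 2 : ℕ) : ℂ) ≠ 0 := Nat.cast_ne_zero.2 (by omega)
  have hcp := cos_phi_pos hN
  have hcos : cos (2 * π / ((N + 2 : ℕ) : ℝ)) = 2 * cos (π / ((N : ℝ) + 2)) ^ 2 - 1 := by
    rw [← cos_two_mul]
    congr 1
    push_cast
    ring
  have hpos : 0 < cos (π / ((N : ℝ) + 2)) ^ 2 := by nlinarith
  have hposC : (cos (π / ((N : ℝ) + 2)) : ℂ) ^ 2 ≠ 0 := by exact_mod_cast hpos.ne'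
  have h4 : (4 : ℂ) ≠ 0 := by norm_num
  unfold RN
  rw [hcos] at hm
  push_cast at hm hposC ⊢
  generalize Complex.cos (↑π / (↑N + 2)) = c at *
  have h1 : ev (extPoly N) (-1) * (4 * c ^ 2) = -1 := by
    have hn0' : ((N : ℂ) + 2) ≠ 0 := by exact_mod_cast hn0
    have h2 : ((N : ℂ) + 2) * (2 * (4 * c ^ 2)) ≠ 0 :=
      mul_ne_zero hn0' (mul_ne_zero two_ne_zero (mul_ne_zero h4 hposC))
    apply mul_left_cancel₀ h2
    linear_combination hm
  rw [eq_comm, neg_eq_iff_eq_neg, div_eq_iff (mul_ne_zero h4 hposC)]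
  linear_combination h1

theorem ext_phi (N : ℕ) (hN : 3 ≤ N) : ev (extPoly N) (pt (2 * π / ((N : ℝ) + 2))) ≠ 0 := by
  obtain ⟨φ, hφ⟩ : ∃ φ : ℝ, φ = 2 * π / ((N + 2 : ℕ) : ℝ) := ⟨_, rfl⟩
  have hφ' : 2 * π / ((N : ℝ) + 2) = φ := by rw [hφ]; push_cast; ring
  have hs := sin_phi_pos hN
  have hc := cos_phi_lt hN
  rw [hφ', ext_eq N hN]
  rw [← hφ] at hs hc
  intro h0
  have him := congrArg Complex.im h0
  rw [Complex.im_sum, Complex.zero_im] at him
  have hterm : ∀ j : ℕ, ((acoef (N + 2) j : ℂ) * pt φ ^ j).im =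
      acoef (N + 2) j * sin (j * φ) := by
    intro j
    rw [pt_pow, Complex.im_ofReal_mul, pt_im']
  simp only [hterm] at him
  -- the antisymmetric part vanishes
  have hw : pt φ ^ (N + 2) = 1 := by rw [hφ]; exact ptn N
  have hsum1 : ∑ j ∈ Finset.range (N + 2), sin (j * φ) = 0 := by
    have h1 := geo0 (N + 2) (pt φ)
    rw [hw, sub_self] at h1
    have h2 : (1 - pt φ) ≠ 0 := by
      intro h
      have := congrArg Complex.re h
      rw [Complex.sub_re, pt_re', Complex.one_re, Complex.zero_re] at this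
      linarith
    have h3 := (mul_eq_zero.1 h1).resolve_left h2
    have h4 := congrArg Complex.im h3
    rw [Complex.im_sum] at h4
    simp only [pt_pow, pt_im', Complex.zero_im] at h4
    exact h4
  have hsum2 : ∑ j ∈ Finset.range (N + 2), sin (j * φ) * cos (j * φ) = 0 := by
    have h1 := geo0 (N + 2) (pt φ ^ 2)
    rw [← pow_mul, mul_comm 2, pow_mul, hw, one_pow, sub_self] at h1
    have h2 : (1 - pt φ ^ 2) ≠ 0 := by
      intro h
      have h4 := congrArg Complex.re h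
      rw [pt_pow, Complex.sub_re, pt_re', Complex.one_re, Complex.zero_re, Nat.cast_ofNat,
        cos_two_mul] at h4
      have := sin_sq_add_cos_sq φ
      nlinarith
    have h3 := (mul_eq_zero.1 h1).resolve_left h2
    have h4 := congrArg Complex.im h3
    rw [Complex.im_sum] at h4
    have h5 : ∀ j : ℕ, ((pt φ ^ 2) ^ j).im = 2 * (sin (j * φ) * cos (j * φ)) := by
      intro j
      rw [← pow_mul, pt_pow, pt_im']
      have : ((2 * j : ℕ) : ℝ) * φ = 2 * (j * φ) := by push_cast; ring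
      rw [this, sin_two_mul]
      ring
    simp only [h5] at h4
    rw [← Finset.mul_sum] at h4
    simpa using h4
  have hpos : 0 < ∑ j ∈ Finset.range (N + 2), (((N + 2 : ℕ) : ℝ) - j) * sin (j * φ) ^ 2 := by
    apply Finset.sum_pos'
    · intro j hj
      have : (j : ℝ) ≤ ((N + 2 : ℕ) : ℝ) := by exact_mod_cast (Finset.mem_range.1 hj).le
      exact mul_nonneg (by linarith) (sq_nonneg _)
    · refine ⟨1, Finset.mem_range.2 (by omega), ?_⟩
      have : (1 : ℝ) < ((N + 2 : ℕ) : ℝ) := by exact_mod_cast (by omega : 1 < N + 2)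
      have h1 : (((N + 2 : ℕ) : ℝ) - ((1 : ℕ) : ℝ)) > 0 := by push_cast at this ⊢; linarith
      have h2 : sin (((1 : ℕ) : ℝ) * φ) > 0 := by simpa using hs
      positivity
  have hn : (0:ℝ) < ((N + 2 : ℕ) : ℝ) := by positivity
  have hkey : (((N + 2 : ℕ) : ℝ) * (1 - cos φ) * sin φ) *
      ∑ j ∈ Finset.range (N + 2), acoef (N + 2) j * sin (j * φ) =
      sin φ * (∑ j ∈ Finset.range (N + 2), sin (j * φ) -
        ∑ j ∈ Finset.range (N + 2), sin (j * φ) * cos (j * φ)) +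
      (1 - cos φ) * ∑ j ∈ Finset.range (N + 2), (((N + 2 : ℕ) : ℝ) - j) * sin (j * φ) ^ 2 := by
    rw [← Finset.sum_sub_distrib, Finset.mul_sum, Finset.mul_sum, Finset.mul_sum,
      ← Finset.sum_add_distrib]
    refine Finset.sum_congr rfl fun j _ => ?_
    unfold acoef
    rw [← hφ]
    have h1 : 1 - cos φ ≠ 0 := by linarith
    have h2 := hs.ne'
    have h3 := hn.ne'
    generalize ((N + 2 : ℕ) : ℝ) = m at *
    generalize sin (↑j * φ) = S at *
    generalize cos (↑j * φ) = C at *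
    field_simp
  rw [him, hsum1, hsum2, mul_zero, sub_zero, mul_zero, zero_add] at hkey
  have : 0 < (1 - cos φ) * ∑ j ∈ Finset.range (N + 2), (((N + 2 : ℕ) : ℝ) - j) * sin (j * φ) ^ 2 :=
    mul_pos (by linarith) hpos
  linarith

theorem targetU1b : TargetU1b := by
  intro N hN
  refine ⟨ext_natDegree N hN, ?_, ?_, ext_neg_one N hN, ext_phi N hN⟩
  · rw [ext_coeff N 0 (by omega)]
    unfold acoef
    simp
  · rw [ext_coeff N 1 (by omega)]
    unfold acoef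
    have hs := sin_phi_pos hN
    have hc := cos_phi_lt hN
    have hn0 : ((N + 2 : ℕ) : ℝ) ≠ 0 := by positivity
    rw [Nat.cast_one, one_mul]
    generalize cos (2 * π / ((N + 2 : ℕ) : ℝ)) = c at *
    generalize sin (2 * π / ((N + 2 : ℕ) : ℝ)) = s at *
    generalize ((N + 2 : ℕ) : ℝ) = m at *
    have h1 : 1 - c ≠ 0 := by linarith
    have h2 : s ≠ 0 := hs.ne'
    field_simp
    ring

end Pool.Agent.H94.KP
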